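import Mathlib
import Pool.Agent.H29.Wedge

set_option autoImplicit false

namespace Pool.Agent.Results.MP_9b3cbe_gt.E8Form

/-- the exterior algebra of `ℤ⁸` -/
def Lam : Type := ExteriorAlgebra ℤ (Fin 8 → ℤ)

noncomputable instance instRingLam : Ring Lam :=
  inferInstanceAs (Ring (ExteriorAlgebra ℤ (Fin 8 → ℤ)))

/-- the degree one element attached to a vector -/
noncomputable def iota (v : Fin 8 → ℤ) : Lam := ExteriorAlgebra.ι ℤ v

/-- the part of degree `k`: the span of the products of `k` elements of degree one -/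
noncomputable def deg (k : ℕ) : AddSubgroup Lam :=
  AddSubgroup.closure {x | ∃ v : Fin k → Fin 8 → ℤ, x = (List.ofFn fun i => iota (v i)).prod}

/-- index set of a basis of `10 H ⊕ E₈` -/
abbrev Idx : Type := (Fin 10 × Fin 2) ⊕ Fin 8

/-- Gram matrix of `10 H` -/
def hyp : Matrix (Fin 10 × Fin 2) (Fin 10 × Fin 2) ℤ :=
  fun p q => if p.1 = q.1 ∧ p.2 ≠ q.2 then 1 else 0

/-- Gram matrix of `10 H ⊕ E₈` -/
def gram : Matrix Idx Idx ℤ := Matrix.fromBlocks hyp 0 0 CartanMatrix.E₈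

/-- the generator `e₁ ∧ ⋯ ∧ e₈` of the top degree -/
noncomputable def top : Lam :=
  (List.ofFn fun i : Fin 8 => iota fun j => if j = i then 1 else 0).prod

theorem deg_eq (k : ℕ) :
    deg k = (ExteriorAlgebra.exteriorPower ℤ k (Fin 8 → ℤ)).toAddSubgroup := by
  rw [← ExteriorAlgebra.ιMulti_span_fixedDegree, Submodule.span_int_eq_addSubgroupClosure, deg]
  congr 1
  ext x
  simp only [Set.mem_ofPred_eq, Set.mem_range, ExteriorAlgebra.ιMulti_apply]
  exact ⟨fun ⟨v, h⟩ => ⟨v, h.symm⟩, fun ⟨v, h⟩ => ⟨v, h.symm⟩⟩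

open Pool.Agent.H29.Wedge in
theorem result : ∃ ω ∈ deg 4, ∃ b : Module.Basis Idx ℤ (deg 2),
    ∀ k l, (b k).1 * (b l).1 * ω = gram k l • top := by
  let b := basisOfTopLeSpanOfCardEqFinrank bb span_top card_eq
  have hb : ∀ k, b k = bb k := fun k => by rw [coe_basisOfTopLeSpanOfCardEqFinrank]
  rw [deg_eq 2, deg_eq 4]
  refine ⟨om, om_mem, b, fun k l => ?_⟩
  have h := bb_mul k l
  rw [← hb, ← hb, mon_full, ExteriorAlgebra.ιMulti_apply] at h
  have e : ∀ i : Fin 8, (Pi.single i 1 : V) = fun j : Fin 8 => if j = i then (1 : ℤ) else 0 := by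
    intro i; ext j; simp [Pi.single_apply]
  simp only [e] at h
  exact h

end Pool.Agent.Results.MP_9b3cbe_gt.E8Form
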